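import Pool.Agent.MZT.Defs
import Pool.Agent.MZA.Mon

set_option autoImplicit false

/-!
# MZT: module B0 (helper26), `ζ(a) = 1 + 2^-a + t`, `3^-a ≤ t ≤ 3^-a + 6 * 4^-a`
-/

namespace Pool.Agent.MZT

open Pool.Agent.Helper21 (mzv H zl Adm)
open Pool.Agent.MZA
open Pool.Agent.MZA.MonAux (ee ee_pos ee_zero adm_single H_single)
open Finset Filter

private theorem b0_three (a : ℕ) : ∑ m ∈ range 3, ee m ^ a = 1 + (1 / 2 : ℝ) ^ a + (1 / 3) ^ a := by
  rw [Finset.sum_range_succ, Finset.sum_range_succ, Finset.sum_range_succ, Finset.sum_range_zero]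
  have e0 : ee 0 = 1 := ee_zero
  have e1 : ee 1 = 1 / 2 := by norm_num [ee]
  have e2 : ee 2 = 1 / 3 := by norm_num [ee]
  rw [e0, e1, e2, one_pow, zero_add]

private theorem b0_term (a n : ℕ) (ha : 2 ≤ a) :
    ee (n + 3) ^ a ≤ 16 * (1 / 4 : ℝ) ^ a * (1 / ((n : ℝ) + 3) - 1 / ((n : ℝ) + 4)) := by
  have h1 : ee (n + 3) = 1 / ((n : ℝ) + 4) := by
    unfold ee
    push_cast
    ring_nf
  have hn : (0 : ℝ) ≤ n := Nat.cast_nonneg n
  obtain ⟨b, rfl⟩ : ∃ b, a = b + 2 := ⟨a - 2, by omega⟩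
  rw [h1, pow_add, pow_add]
  have h2 : (1 / ((n : ℝ) + 4)) ^ b ≤ (1 / 4 : ℝ) ^ b := by
    apply pow_le_pow_left₀ (by positivity)
    apply one_div_le_one_div_of_le (by norm_num)
    linarith
  have h3 : (1 / ((n : ℝ) + 4)) ^ 2 ≤ 1 / ((n : ℝ) + 3) - 1 / ((n : ℝ) + 4) := by
    have e1 : 1 / ((n : ℝ) + 3) - 1 / ((n : ℝ) + 4) = 1 / (((n : ℝ) + 3) * ((n : ℝ) + 4)) := by
      field_simp
      ring
    rw [e1, div_pow, one_pow]
    apply one_div_le_one_div_of_le (by positivity)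
    nlinarith
  calc (1 / ((n : ℝ) + 4)) ^ b * (1 / ((n : ℝ) + 4)) ^ 2
      ≤ (1 / 4 : ℝ) ^ b * (1 / ((n : ℝ) + 3) - 1 / ((n : ℝ) + 4)) :=
        mul_le_mul h2 h3 (by positivity) (by positivity)
    _ = 16 * ((1 / 4 : ℝ) ^ b * (1 / 4) ^ 2) * (1 / ((n : ℝ) + 3) - 1 / ((n : ℝ) + 4)) := by
        ring

private theorem b0_upper (a : ℕ) (ha : 2 ≤ a) (n : ℕ) : ∑ m ∈ range (n + 3), ee m ^ a ≤
    1 + (1 / 2 : ℝ) ^ a + (1 / 3) ^ a + 16 * (1 / 4 : ℝ) ^ a * (1 / 3 - 1 / ((n : ℝ) + 3)) := by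
  induction n with
  | zero =>
    rw [Nat.zero_add, b0_three]
    norm_num
  | succ n ih =>
    have h1 : n + 1 + 3 = (n + 3) + 1 := by ring
    rw [h1, Finset.sum_range_succ]
    have h2 := b0_term a n ha
    push_cast
    have h3 : (n : ℝ) + 1 + 3 = n + 4 := by ring
    rw [h3]
    have h4 : 16 * (1 / 4 : ℝ) ^ a * (1 / 3 - 1 / ((n : ℝ) + 4)) =
        16 * (1 / 4 : ℝ) ^ a * (1 / 3 - 1 / ((n : ℝ) + 3)) +
        16 * (1 / 4 : ℝ) ^ a * (1 / ((n : ℝ) + 3) - 1 / ((n : ℝ) + 4)) := by ring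
    rw [h4]
    linarith

theorem thm_B0 : St_B0 := by
  intro a ha
  have hadm : Adm [a] := adm_single a (by omega)
  have h1 : Tendsto (H [a]) atTop (nhds (z a)) := Pool.Agent.Helper21.tendsto_zl [a] hadm
  constructor
  · have h2 : (1 / 3 : ℝ) ^ a + 1 + (1 / 2) ^ a ≤ z a := by
      refine ge_of_tendsto h1 ?_
      filter_upwards [eventually_ge_atTop 3] with n hn
      rw [H_single]
      have h3 : ∑ m ∈ range 3, ee m ^ a ≤ ∑ m ∈ range n, ee m ^ a := by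
        apply Finset.sum_le_sum_of_subset_of_nonneg (Finset.range_mono hn)
        intro m _ _
        exact pow_nonneg (ee_pos m).le a
      rw [b0_three] at h3
      linarith
    linarith
  · have h2 : z a ≤ 1 + (1 / 2 : ℝ) ^ a + ((1 / 3) ^ a + 6 * (1 / 4) ^ a) := by
      refine le_of_tendsto h1 ?_
      filter_upwards [eventually_ge_atTop 3] with n hn
      rw [H_single]
      obtain ⟨m, rfl⟩ : ∃ m, n = m + 3 := ⟨n - 3, by omega⟩
      refine (b0_upper a (by omega) m).trans ?_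
      have h3 : 16 * (1 / 4 : ℝ) ^ a * (1 / 3 - 1 / ((m : ℝ) + 3)) ≤ 6 * (1 / 4) ^ a := by
        have e1 : (0 : ℝ) ≤ 1 / ((m : ℝ) + 3) := by positivity
        have e2 : (0 : ℝ) < (1 / 4 : ℝ) ^ a := by positivity
        nlinarith
      linarith
    linarith

end Pool.Agent.MZT
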