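import Pool.Agent.MZT.Defs

/-!
# MZT, module B (helper16): the three estimates
-/

set_option autoImplicit false

namespace Pool.Agent.MZT

namespace B

/-- `ζ(a) = 1 + 2^-a + θ 3^-a` -/
lemma exists_theta (h0 : St_B0) (a : ℕ) (ha : 100 ≤ a) :
    ∃ θ : ℝ, 1 ≤ θ ∧ θ ≤ 1 + 1 / 10 ^ 6 ∧ z a = 1 + (1 / 2) ^ a + θ * (1 / 3) ^ a := by
  obtain ⟨h1, h2⟩ := h0 a (by omega)
  have h3 : (0 : ℝ) < (1 / 3) ^ a := by positivity
  have h4 : (1 / 4 : ℝ) ^ a = (3 / 4) ^ a * (1 / 3) ^ a := by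
    rw [← mul_pow]; norm_num
  have h5 : (3 / 4 : ℝ) ^ a ≤ 1 / 10 ^ 7 :=
    (pow_le_pow_of_le_one (by norm_num) (by norm_num) ha).trans (by norm_num)
  refine ⟨(z a - 1 - (1 / 2) ^ a) / (1 / 3) ^ a, ?_, ?_, ?_⟩
  · rw [le_div_iff₀ h3, one_mul]
    exact h1
  · rw [div_le_iff₀ h3]
    rw [h4] at h2
    have h6 : (3 / 4 : ℝ) ^ a * (1 / 3) ^ a ≤ 1 / 10 ^ 7 * (1 / 3) ^ a :=
      mul_le_mul_of_nonneg_right h5 h3.le
    linarith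
  · field_simp
    ring

lemma small (c : ℝ) (hc0 : 0 ≤ c) (hc : c ≤ 2 / 3) (a : ℕ) (ha : 100 ≤ a) :
    0 ≤ c ^ a ∧ c ^ a ≤ 1 / 10 ^ 6 := by
  refine ⟨pow_nonneg hc0 a, ?_⟩
  have h1 : c ^ a ≤ (2 / 3) ^ a := pow_le_pow_left₀ hc0 hc a
  have h2 : (2 / 3 : ℝ) ^ a ≤ (2 / 3) ^ 100 :=
    pow_le_pow_of_le_one (by norm_num) (by norm_num) ha
  exact h1.trans (h2.trans (by norm_num))

lemma am {u v a b : ℝ} (hu : |u| ≤ a) (hv : |v| ≤ b) : |u * v| ≤ a * b := by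
  rw [abs_mul]
  exact mul_le_mul hu hv (abs_nonneg _) ((abs_nonneg _).trans hu)

lemma ad {u v a b : ℝ} (hu : |u| ≤ a) (hv : |v| ≤ b) : |u + v| ≤ a + b :=
  (abs_add_le u v).trans (add_le_add hu hv)

lemma sb {u v a b : ℝ} (hu : |u| ≤ a) (hv : |v| ≤ b) : |u - v| ≤ a + b := by
  rw [abs_le] at hu hv ⊢
  constructor <;> linarith [hu.1, hu.2, hv.1, hv.2]

lemma tt {t : ℝ} (h1 : 1 ≤ t) (h2 : t ≤ 1 + 1 / 10 ^ 6) : |t| ≤ 2 := by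
  rw [abs_le]
  norm_num at h2 ⊢
  constructor <;> linarith

lemma sm {v : ℝ} (h : 0 ≤ v ∧ v ≤ 1 / 10 ^ 6) : |v| ≤ 1 / 10 ^ 6 := by
  rw [abs_of_nonneg h.1]
  exact h.2

end B

open B in
/-- **MODULE B** -/
theorem thm_B (h0 : St_B0) : St_B := by
  intro x e d hx he hd
  obtain ⟨t1, h1a, h1b, h1⟩ := exists_theta h0 x hx
  obtain ⟨t2, h2a, h2b, h2⟩ := exists_theta h0 (x + 2 * e) (by omega)
  obtain ⟨t3, h3a, h3b, h3⟩ := exists_theta h0 (x + d) (by omega)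
  obtain ⟨t4, h4a, h4b, h4⟩ := exists_theta h0 (x + 2 * e + d) (by omega)
  obtain ⟨t5, h5a, h5b, h5⟩ := exists_theta h0 (2 * x + 2 * e) (by omega)
  obtain ⟨t6, h6a, h6b, h6⟩ := exists_theta h0 (2 * x + 2 * e + d) (by omega)
  obtain ⟨t7, h7a, h7b, h7⟩ := exists_theta h0 (2 * x + 2 * e + 2 * d) (by omega)
  obtain ⟨p, hp⟩ : ∃ p : ℝ, p = (1 / 2) ^ x := ⟨_, rfl⟩
  obtain ⟨r, hr⟩ : ∃ p : ℝ, p = (2 / 3) ^ x := ⟨_, rfl⟩
  obtain ⟨s, hs⟩ : ∃ p : ℝ, p = (1 / 2) ^ (2 * e) := ⟨_, rfl⟩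
  obtain ⟨σ, hσ⟩ : ∃ p : ℝ, p = (2 / 3) ^ (2 * e) := ⟨_, rfl⟩
  obtain ⟨δ, hδ⟩ : ∃ p : ℝ, p = (1 / 2) ^ d := ⟨_, rfl⟩
  obtain ⟨ρ, hρ⟩ : ∃ p : ℝ, p = (2 / 3) ^ d := ⟨_, rfl⟩
  have bp := small (1 / 2) (by norm_num) (by norm_num) x hx
  have br := small (2 / 3) (by norm_num) (by norm_num) x hx
  have bs := small (1 / 2) (by norm_num) (by norm_num) (2 * e) (by omega)
  have bσ := small (2 / 3) (by norm_num) (by norm_num) (2 * e) (by omega)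
  have bδ := small (1 / 2) (by norm_num) (by norm_num) d hd
  have bρ := small (2 / 3) (by norm_num) (by norm_num) d hd
  rw [← hp] at bp
  rw [← hr] at br
  rw [← hs] at bs
  rw [← hσ] at bσ
  rw [← hδ] at bδ
  rw [← hρ] at bρ
  have e3 : ∀ a : ℕ, (1 / 3 : ℝ) ^ a = (2 / 3) ^ a * (1 / 2) ^ a := fun a => by
    rw [← mul_pow]; norm_num
  have ex3 : (1 / 3 : ℝ) ^ x = r * p := by rw [e3, hr, hp]
  have ed3 : (1 / 3 : ℝ) ^ d = ρ * δ := by rw [e3, hρ, hδ]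
  have ee3 : (1 / 3 : ℝ) ^ (2 * e) = σ * s := by rw [e3, hσ, hs]
  have z1 : z x = 1 + p + t1 * (r * p) := by rw [h1, ex3, hp]
  have z2 : z (x + 2 * e) = 1 + p * s + t2 * (r * p * (σ * s)) := by
    rw [h2, pow_add, pow_add, ex3, ee3, hp, hs]
  have z3 : z (x + d) = 1 + p * δ + t3 * (r * p * (ρ * δ)) := by
    rw [h3, pow_add, pow_add, ex3, ed3, hp, hδ]
  have z4 : z (x + 2 * e + d) = 1 + p * s * δ + t4 * (r * p * (σ * s) * (ρ * δ)) := by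
    rw [h4, pow_add, pow_add, pow_add, pow_add, ex3, ee3, ed3, hp, hs, hδ]
  have f2 : ∀ (c : ℝ) (a : ℕ), c ^ (2 * a) = (c ^ a) ^ 2 := fun c a => by
    rw [mul_comm, pow_mul]
  have z5 : z (2 * x + 2 * e) = 1 + p ^ 2 * s + t5 * ((r * p) ^ 2 * (σ * s)) := by
    rw [h5, pow_add, pow_add, f2 _ x, f2 _ x, ex3, ee3, hp, hs]
  have z6 : z (2 * x + 2 * e + d) = 1 + p ^ 2 * s * δ + t6 * ((r * p) ^ 2 * (σ * s) * (ρ * δ)) := by
    rw [h6, pow_add, pow_add, pow_add, pow_add, f2 _ x, f2 _ x, ex3, ee3, ed3, hp, hs, hδ]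
  have z7 : z (2 * x + 2 * e + 2 * d) =
      1 + p ^ 2 * s * δ ^ 2 + t7 * ((r * p) ^ 2 * (σ * s) * (ρ * δ) ^ 2) := by
    rw [h7, pow_add, pow_add, pow_add, pow_add, f2 _ x, f2 _ x, f2 _ d, f2 _ d, ex3, ee3, ed3,
      hp, hs, hδ]
  have w4 : z (x + d + 2 * e) = z (x + 2 * e + d) := by congr 1; ring
  have w7 : z (2 * (x + d) + 2 * e) = z (2 * x + 2 * e + 2 * d) := by congr 1; ring
  have e4 : (1 / 2 : ℝ) ^ (x + 2 * e) = p * s := by rw [pow_add, hp, hs]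
  have g1 := tt h1a h1b
  have g2 := tt h2a h2b
  have g3 := tt h3a h3b
  have g4 := tt h4a h4b
  have g5 := tt h5a h5b
  have g6 := tt h6a h6b
  have g7 := tt h7a h7b
  have cp := sm bp
  have cr := sm br
  have cs := sm bs
  have cσ := sm bσ
  have cδ := sm bδ
  have cρ := sm bρ
  have c1 : |(1 : ℝ)| ≤ 1 := by simp
  have c2 : |(2 : ℝ)| ≤ 2 := by simp
  have hE1 := ad (ad (ad (am g1 cr) cs) (am (am g2 cr) (am cσ cs)))
    (am cp (ad (ad (am (am g2 cr) (am cσ cs)) (am (am g1 cr) cs))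
      (am (am (sb (am g1 g2) g5) (am cr cr)) (am cσ cs))))
  have hE2 := sb (ad (ad (ad (am g2 (am cσ cs)) (am (am cp g2) (am cσ cs))) (am (am g1 cp) cs))
    (am (am (sb (am g1 g2) g5) (am cr cp)) (am cσ cs)))
    (am cρ (ad (ad (ad (ad g3 (am g4 (am cσ cs))) (am (am (am cp cδ) g4) (am cσ cs)))
      (am (am (am g3 cp) cs) cδ)) (am (am (am (sb (am g3 g4) g7) (am cr cp)) (am cσ cs)) (am cρ cδ))))
  refine ⟨1 + (t1 * r + s + t2 * r * (σ * s) + p * (t2 * r * (σ * s) + t1 * r * s +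
      (t1 * t2 - t5) * (r * r) * (σ * s))),
    t1 + (t2 * (σ * s) + p * t2 * (σ * s) + t1 * p * s + (t1 * t2 - t5) * (r * p) * (σ * s) -
      ρ * (t3 + t4 * (σ * s) + p * δ * t4 * (σ * s) + t3 * p * s * δ +
        (t3 * t4 - t7) * (r * p) * (σ * s) * (ρ * δ))),
    t1 + (-(δ * (t1 - t3 * (ρ * δ))) - t3 * (ρ * δ) + (1 - δ) * σ * (t2 - t4 * (ρ * δ)) +
      r * σ * ((t1 - t3 * (ρ * δ)) * (t2 - t4 * (ρ * δ))) -
      r * σ * (t5 - 2 * t6 * (ρ * δ) + t7 * (ρ * δ * (ρ * δ)))), ?_, ?_, ?_, ?_, ?_, ?_⟩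
  · have h := abs_le.1 (hE1.trans (c := (1 : ℝ) / 100) (by norm_num))
    constructor <;> linarith [h.1, h.2]
  · have h := abs_le.1 (hE2.trans (c := (1 : ℝ) / 100) (by norm_num))
    norm_num at h1b
    constructor <;> linarith [h.1, h.2]
  · have h' : |-(δ * (t1 - t3 * (ρ * δ))) - t3 * (ρ * δ) + (1 - δ) * σ * (t2 - t4 * (ρ * δ)) +
      r * σ * ((t1 - t3 * (ρ * δ)) * (t2 - t4 * (ρ * δ))) -
      r * σ * (t5 - 2 * t6 * (ρ * δ) + t7 * (ρ * δ * (ρ * δ)))| ≤ 1 / 100 := by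
      have hA := am cδ (sb g1 (am g3 (am cρ cδ)))
      rw [← abs_neg] at hA
      have hE := sb (ad (ad (sb hA (am g3 (am cρ cδ)))
        (am (am (sb c1 cδ) cσ) (sb g2 (am g4 (am cρ cδ)))))
        (am (am cr cσ) (am (sb g1 (am g3 (am cρ cδ))) (sb g2 (am g4 (am cρ cδ))))))
        (am (am cr cσ) (ad (sb g5 (am (am c2 g6) (am cρ cδ))) (am g7 (am (am cρ cδ) (am cρ cδ)))))
      exact hE.trans (by norm_num)
    have h := abs_le.1 h'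
    norm_num at h1b
    constructor <;> linarith [h.1, h.2]
  · rw [bb, z1, z2, z5, ← hp]
    ring
  · rw [bb, bb, w4, w7, z1, z2, z3, z4, z5, z7, ← hδ, ex3]
    ring
  · rw [aa, bb, bb, w4, w7, z1, z2, z3, z4, z5, z6, z7, ex3, e4]
    ring

end Pool.Agent.MZT
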