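import Pool.Agent.MZT.Defs

set_option autoImplicit false

/-!
# MZT, module C: the 3x3 determinant (helper44)
-/

namespace Pool.Agent.MZT

theorem c_term {c X t : ℝ} (_h0 : 0 ≤ c) (hc : c ≤ (51 / 50) ^ 3) (ht : t ≤ X / 1000) (hX : 0 ≤ X)
    (ht0 : 0 ≤ t) : c * t ≤ X / 900 := by
  have h1 : c * t ≤ (51 / 50) ^ 3 * (X / 1000) := mul_le_mul hc ht ht0 (by positivity)
  nlinarith

theorem c_prod {a b c : ℝ} (ha : 49 / 50 ≤ a ∧ a ≤ 51 / 50) (hb : 49 / 50 ≤ b ∧ b ≤ 51 / 50)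
    (hc : 49 / 50 ≤ c ∧ c ≤ 51 / 50) :
    (0 ≤ a * b * c ∧ a * b * c ≤ (51 / 50) ^ 3) ∧ 9 / 10 ≤ a * b * c := by
  obtain ⟨ha1, ha2⟩ := ha
  obtain ⟨hb1, hb2⟩ := hb
  obtain ⟨hc1, hc2⟩ := hc
  have h1 : (49 / 50) * (49 / 50) ≤ a * b := mul_le_mul ha1 hb1 (by norm_num) (by linarith)
  have h2 : a * b ≤ (51 / 50) * (51 / 50) := mul_le_mul ha2 hb2 (by linarith) (by norm_num)
  have h3 : (49 / 50) * (49 / 50) * (49 / 50) ≤ a * b * c :=
    mul_le_mul h1 hc1 (by norm_num) (by linarith)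
  have h4 : a * b * c ≤ (51 / 50) * (51 / 50) * (51 / 50) :=
    mul_le_mul h2 hc2 (by linarith) (by norm_num)
  refine ⟨⟨by linarith, by linarith⟩, by linarith⟩

/-- the determinant with the leading terms `(3/2)^e`, `2^e`, `3^e` -/
theorem c_det {D B G : Fin 3 → ℝ} (hD : ∀ i, 49 / 50 ≤ D i ∧ D i ≤ 51 / 50)
    (hB : ∀ i, 49 / 50 ≤ B i ∧ B i ≤ 51 / 50) (hG : ∀ i, 49 / 50 ≤ G i ∧ G i ≤ 51 / 50)
    {p q r p' q' r' : ℝ} (hp : 0 < p) (hq : 0 < q) (hr : 0 < r) (hp' : 0 < p') (hq' : 0 < q')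
    (hr' : 0 < r') (h1 : p ≤ q / 1000) (h2 : p ≤ r) (h3 : q' ≤ r' / 1000) (h4 : p' ≤ r' / 1000) :
    0 < D 0 * B 1 * G 2 * (q * (r * r')) - D 0 * B 2 * G 1 * ((q * q') * r)
      - D 1 * B 0 * G 2 * (p * (r * r')) + D 1 * B 2 * G 0 * (p * (q * q'))
      + D 2 * B 0 * G 1 * ((p * p') * r) - D 2 * B 1 * G 0 * ((p * p') * q) := by
  set X := q * (r * r') with hX
  have hX0 : 0 < X := by positivity
  have k0 := (c_prod (hD 0) (hB 1) (hG 2)).2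
  have k1 := (c_prod (hD 0) (hB 2) (hG 1)).1
  have k2 := (c_prod (hD 1) (hB 0) (hG 2)).1
  have k3 := (c_prod (hD 1) (hB 2) (hG 0)).1
  have k4 := (c_prod (hD 2) (hB 0) (hG 1)).1
  have k5 := (c_prod (hD 2) (hB 1) (hG 0)).1
  have t1 : (q * q') * r ≤ X / 1000 := by
    have : q' * (q * r) ≤ r' / 1000 * (q * r) := mul_le_mul_of_nonneg_right h3 (by positivity)
    rw [hX]
    linarith
  have t2 : p * (r * r') ≤ X / 1000 := by
    have : p * (r * r') ≤ q / 1000 * (r * r') := mul_le_mul_of_nonneg_right h1 (by positivity)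
    rw [hX]
    linarith
  have t5 : (p * p') * q ≤ X / 1000 := by
    have e1 : p * p' ≤ r * (r' / 1000) := mul_le_mul h2 h4 hp'.le hr.le
    have : (p * p') * q ≤ (r * (r' / 1000)) * q := mul_le_mul_of_nonneg_right e1 hq.le
    rw [hX]
    linarith
  have m1 := c_term k1.1 k1.2 t1 hX0.le (by positivity)
  have m2 := c_term k2.1 k2.2 t2 hX0.le (by positivity)
  have m5 := c_term k5.1 k5.2 t5 hX0.le (by positivity)
  have n3 : 0 ≤ D 1 * B 2 * G 0 * (p * (q * q')) := mul_nonneg k3.1 (by positivity)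
  have n4 : 0 ≤ D 2 * B 0 * G 1 * ((p * p') * r) := mul_nonneg k4.1 (by positivity)
  have m0 : 9 / 10 * X ≤ D 0 * B 1 * G 2 * X := mul_le_mul_of_nonneg_right k0 hX0.le
  linarith

theorem c_small (b : ℕ) (hb : 100 ≤ b) {s : ℝ} (h0 : 0 ≤ s) (hs : s ≤ 3 / 4) : s ^ b ≤ 1 / 1000 := by
  have h1 : s ^ b ≤ s ^ 100 := pow_le_pow_of_le_one h0 (by linarith) hb
  have h2 : s ^ 100 ≤ (3 / 4) ^ 100 := pow_le_pow_left₀ h0 hs 100
  have h3 : ((3 : ℝ) / 4) ^ 100 ≤ 1 / 1000 := by norm_num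
  linarith

theorem c_row (P e d : ℕ) (he : e ≤ P) {B G D : ℝ}
    (h1 : bb (P - e) e = B * (1 / 2) ^ (P - e))
    (h2 : bb (P - e + d) e - (1 / 2) ^ d * bb (P - e) e = - (G * ((1 / 2) ^ d * (1 / 3) ^ (P - e))))
    (h3 : aa (P - e) e d - bb (P - e) e - bb (P - e + d) e =
      - (D * ((1 / 3) ^ (P - e) * (1 / 2) ^ (P - e + 2 * e)))) :
    bb (P - e) e = (1 / 2) ^ P * (B * 2 ^ e) ∧
    bb (P - e + d) e - (1 / 2) ^ d * bb (P - e) e = -((1 / 2) ^ d * (1 / 3) ^ P) * (G * 3 ^ e) ∧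
    aa (P - e) e d - bb (P - e) e - bb (P - e + d) e =
      -((1 / 3) ^ P * (1 / 2) ^ P) * (D * (3 / 2) ^ e) := by
  have e2 : ((1 : ℝ) / 2) ^ (P - e) = (1 / 2) ^ P * 2 ^ e := by
    have : ((1 : ℝ) / 2) ^ P = (1 / 2) ^ (P - e) * (1 / 2) ^ e := by
      rw [← pow_add]
      congr 1
      omega
    rw [this, mul_assoc, ← mul_pow]
    norm_num
  have e3 : ((1 : ℝ) / 3) ^ (P - e) = (1 / 3) ^ P * 3 ^ e := by
    have : ((1 : ℝ) / 3) ^ P = (1 / 3) ^ (P - e) * (1 / 3) ^ e := by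
      rw [← pow_add]
      congr 1
      omega
    rw [this, mul_assoc, ← mul_pow]
    norm_num
  have e4 : ((1 : ℝ) / 2) ^ (P - e + 2 * e) = (1 / 2) ^ P * (1 / 2) ^ e := by
    rw [← pow_add]
    congr 1
    omega
  have e5 : ((3 : ℝ) / 2) ^ e = 3 ^ e * (1 / 2) ^ e := by
    rw [← mul_pow]
    norm_num
  refine ⟨?_, ?_, ?_⟩
  · rw [h1, e2]
    ring
  · rw [h2, e3]
    ring
  · rw [h3, e3, e4, e5]
    ring

/-- MODULE C -/
theorem thm_C (hB : St_B) : St_C := by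
  intro P d hd e he0 he1 he2 he3
  have hle : ∀ i, e i ≤ P := by
    intro i
    fin_cases i
    · simp only [Fin.zero_eta, Fin.isValue]
      omega
    · simp only [Fin.mk_one, Fin.isValue]
      omega
    · simp only [Fin.reduceFinMk, Fin.isValue]
      omega
  have hge : ∀ i, 100 ≤ e i := by
    intro i
    fin_cases i
    · simp only [Fin.zero_eta, Fin.isValue]
      omega
    · simp only [Fin.mk_one, Fin.isValue]
      omega
    · simp only [Fin.reduceFinMk, Fin.isValue]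
      omega
  have hx : ∀ i, 100 ≤ P - e i := by
    intro i
    fin_cases i
    · simp only [Fin.zero_eta, Fin.isValue]
      omega
    · simp only [Fin.mk_one, Fin.isValue]
      omega
    · simp only [Fin.reduceFinMk, Fin.isValue]
      omega
  have h : ∀ i, ∃ B G D : ℝ, (49 / 50 ≤ B ∧ B ≤ 51 / 50) ∧ (49 / 50 ≤ G ∧ G ≤ 51 / 50) ∧
      (49 / 50 ≤ D ∧ D ≤ 51 / 50) ∧
      bb (P - e i) (e i) = (1 / 2) ^ P * (B * 2 ^ e i) ∧
      bb (P - e i + d) (e i) - (1 / 2) ^ d * bb (P - e i) (e i) =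
        -((1 / 2) ^ d * (1 / 3) ^ P) * (G * 3 ^ e i) ∧
      aa (P - e i) (e i) d - bb (P - e i) (e i) - bb (P - e i + d) (e i) =
        -((1 / 3) ^ P * (1 / 2) ^ P) * (D * (3 / 2) ^ e i) := by
    intro i
    obtain ⟨B, G, D, hB1, hG1, hD1, h1, h2, h3⟩ := hB (P - e i) (e i) d (hx i) (hge i) hd
    exact ⟨B, G, D, hB1, hG1, hD1, c_row P (e i) d (hle i) h1 h2 h3⟩
  choose B G D hB1 hG1 hD1 h1 h2 h3 using h
  obtain ⟨a, ha⟩ : ∃ a, e 1 = e 0 + a := ⟨e 1 - e 0, by omega⟩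
  obtain ⟨b, hb⟩ : ∃ b, e 2 = e 1 + b := ⟨e 2 - e 1, by omega⟩
  have ha100 : 100 ≤ a := by omega
  have hb100 : 100 ≤ b := by omega
  have key := c_det hD1 hB1 hG1 (p := (3 / 2 : ℝ) ^ a) (q := (2 : ℝ) ^ a) (r := (3 : ℝ) ^ a)
    (p' := (3 / 2 : ℝ) ^ b) (q' := (2 : ℝ) ^ b) (r' := (3 : ℝ) ^ b)
    (by positivity) (by positivity) (by positivity) (by positivity) (by positivity) (by positivity)
    (by
      have e1 : ((3 : ℝ) / 2) ^ a = (3 / 4) ^ a * 2 ^ a := by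
        rw [← mul_pow]
        norm_num
      have e2 := c_small a ha100 (s := 3 / 4) (by norm_num) le_rfl
      have e3 : (0 : ℝ) < 2 ^ a := by positivity
      rw [e1]
      nlinarith)
    (pow_le_pow_left₀ (by norm_num) (by norm_num) a)
    (by
      have e1 : (2 : ℝ) ^ b = (2 / 3) ^ b * 3 ^ b := by
        rw [← mul_pow]
        norm_num
      have e2 := c_small b hb100 (s := 2 / 3) (by norm_num) (by norm_num)
      have e3 : (0 : ℝ) < 3 ^ b := by positivity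
      rw [e1]
      nlinarith)
    (by
      have e1 : ((3 : ℝ) / 2) ^ b = (1 / 2) ^ b * 3 ^ b := by
        rw [← mul_pow]
        norm_num
      have e2 := c_small b hb100 (s := 1 / 2) (by norm_num) (by norm_num)
      have e3 : (0 : ℝ) < 3 ^ b := by positivity
      rw [e1]
      nlinarith)
  have a0 := h1 0
  have a1 := h1 1
  have a2 := h1 2
  have b0 := h2 0
  have b1 := h2 1
  have b2 := h2 2
  have c0 := h3 0
  have c1 := h3 1
  have c2 := h3 2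
  have p1 : (2 : ℝ) ^ e 1 = 2 ^ e 0 * 2 ^ a := by rw [ha, pow_add]
  have p2 : (2 : ℝ) ^ e 2 = 2 ^ e 0 * 2 ^ a * 2 ^ b := by rw [hb, pow_add, p1]
  have q1 : (3 : ℝ) ^ e 1 = 3 ^ e 0 * 3 ^ a := by rw [ha, pow_add]
  have q2 : (3 : ℝ) ^ e 2 = 3 ^ e 0 * 3 ^ a * 3 ^ b := by rw [hb, pow_add, q1]
  have r1 : (3 / 2 : ℝ) ^ e 1 = (3 / 2) ^ e 0 * (3 / 2) ^ a := by rw [ha, pow_add]
  have r2 : (3 / 2 : ℝ) ^ e 2 = (3 / 2) ^ e 0 * (3 / 2) ^ a * (3 / 2) ^ b := by rw [hb, pow_add, r1]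
  rw [p1] at a1
  rw [p2] at a2
  rw [q1] at b1
  rw [q2] at b2
  rw [r1] at c1
  rw [r2] at c2
  rw [Matrix.det_fin_three]
  simp only [Matrix.of_apply, Matrix.cons_val_zero, Matrix.cons_val_one, Matrix.cons_val]
  generalize aa (P - e 0) (e 0) d = α0 at *
  generalize aa (P - e 1) (e 1) d = α1 at *
  generalize aa (P - e 2) (e 2) d = α2 at *
  generalize bb (P - e 0) (e 0) = β0 at *
  generalize bb (P - e 1) (e 1) = β1 at *
  generalize bb (P - e 2) (e 2) = β2 at *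
  generalize bb (P - e 0 + d) (e 0) = γ0 at *
  generalize bb (P - e 1 + d) (e 1) = γ1 at *
  generalize bb (P - e 2 + d) (e 2) = γ2 at *
  have hpos : (0 : ℝ) < ((1 / 3) ^ P * (1 / 2) ^ P) * (1 / 2) ^ P * ((1 / 2) ^ d * (1 / 3) ^ P) *
      ((3 / 2) ^ e 0 * 2 ^ e 0 * 3 ^ e 0) := by positivity
  have hfin := mul_pos hpos key
  intro h0
  apply absurd hfin
  rw [not_lt]
  apply le_of_eq
  have g0 : γ0 = (1 / 2) ^ d * β0 + -((1 / 2) ^ d * (1 / 3) ^ P) * (G 0 * 3 ^ e 0) := by linarith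
  have g1 : γ1 = (1 / 2) ^ d * β1 + -((1 / 2) ^ d * (1 / 3) ^ P) * (G 1 * (3 ^ e 0 * 3 ^ a)) := by
    linarith
  have g2 : γ2 = (1 / 2) ^ d * β2 + -((1 / 2) ^ d * (1 / 3) ^ P) *
      (G 2 * (3 ^ e 0 * 3 ^ a * 3 ^ b)) := by linarith
  have f0 : α0 = β0 + γ0 + -((1 / 3) ^ P * (1 / 2) ^ P) * (D 0 * (3 / 2) ^ e 0) := by linarith
  have f1 : α1 = β1 + γ1 + -((1 / 3) ^ P * (1 / 2) ^ P) * (D 1 * ((3 / 2) ^ e 0 * (3 / 2) ^ a)) := by
    linarith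
  have f2 : α2 = β2 + γ2 + -((1 / 3) ^ P * (1 / 2) ^ P) *
      (D 2 * ((3 / 2) ^ e 0 * (3 / 2) ^ a * (3 / 2) ^ b)) := by linarith
  rw [f0, f1, f2, g0, g1, g2, a0, a1, a2] at h0
  rw [← h0]
  ring

end Pool.Agent.MZT
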