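import Pool.Agent.MZT.Defs

set_option autoImplicit false

/-!
# MZT, module A: the symmetric sum of a triple (helper44)
-/

namespace Pool.Agent.MZT

open Pool.Agent.Helper21 (zl Adm)
open Pool.Agent.MZA (st thm_Stf)

theorem adm1 {a : ℕ} (ha : 2 ≤ a) : Adm [a] := by
  refine ⟨?_, ?_⟩
  · intro x hx
    rw [List.mem_singleton] at hx
    omega
  · intro x t h
    obtain ⟨rfl, -⟩ := List.cons.inj h
    exact ha

theorem adm2 {a b : ℕ} (ha : 2 ≤ a) (hb : 2 ≤ b) : Adm [a, b] := by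
  refine ⟨?_, ?_⟩
  · intro x hx
    simp only [List.mem_cons, List.not_mem_nil, or_false] at hx
    omega
  · intro x t h
    obtain ⟨rfl, -⟩ := List.cons.inj h
    exact ha

/-- `ζ(a) ζ(b)` -/
theorem prod2 {a b : ℕ} (ha : 2 ≤ a) (hb : 2 ≤ b) :
    zl [a] * zl [b] = zl [a, b] + zl [b, a] + zl [a + b] := by
  have h := (thm_Stf a [b] ha (adm1 hb)).1
  simp only [st, List.map_cons, List.map_nil, List.sum_cons, List.sum_nil] at h
  rw [h, Nat.add_comm b a]
  ring

/-- `ζ(a) ζ(b, c)` -/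
theorem prod3 {a b c : ℕ} (ha : 2 ≤ a) (hb : 2 ≤ b) (hc : 2 ≤ c) :
    zl [a] * zl [b, c] = zl [a, b, c] + zl [b, a, c] + zl [b, c, a] + zl [a + b, c] +
      zl [b, a + c] := by
  have h := (thm_Stf a [b, c] ha (adm2 hb hc)).1
  simp only [st, List.map_cons, List.map_nil, List.sum_cons, List.sum_nil] at h
  rw [h, Nat.add_comm b a, Nat.add_comm c a]
  ring

/-- The symmetric sum of the six values. -/
theorem S_eq {a b c : ℕ} (ha : 2 ≤ a) (hb : 2 ≤ b) (hc : 2 ≤ c) :
    S a b c = zl [a, b, c] + zl [a, c, b] + zl [b, a, c] + zl [b, c, a] + zl [c, a, b] +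
      zl [c, b, a] := by
  have h1 := prod3 ha hb hc
  have h2 := prod3 ha hc hb
  have h3 := prod2 hb hc
  have h5 := prod2 hb (by omega : 2 ≤ a + c)
  have h6 := prod2 hc (by omega : 2 ≤ a + b)
  rw [show b + (a + c) = a + b + c by omega] at h5
  rw [show c + (a + b) = a + b + c by omega] at h6
  simp only [S, z]
  linear_combination h1 + h2 + zl [a] * h3 - h5 - h6

/-- MODULE A -/
theorem thm_A : St_A := by
  rintro K a b c ha hb hc ⟨h1, h2, h3, h4, h5, h6⟩
  rw [S_eq ha hb hc]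
  exact K.add_mem (K.add_mem (K.add_mem (K.add_mem (K.add_mem h1 h2) h3) h4) h5) h6

end Pool.Agent.MZT
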