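import Mathlib
import Pool.Agent.MZA.St
import Pool.Agent.MZA.Stf
import Pool.Agent.MZA.Zev

set_option autoImplicit false

/-!
# MZT: triple zeta values of every weight (R21, page R21_MP_2000e9_nt_h11.md)
-/

namespace Pool.Agent.MZT

open Pool.Agent.Helper21 (mzv H zl Adm)
open Pool.Agent.MZA

/-- `ζ(a)` -/
noncomputable def z (a : ℕ) : ℝ := zl [a]

/-- the six values are in `K` -/
def Clean (K : IntermediateField ℚ ℝ) (a b c : ℕ) : Prop :=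
  zl [a, b, c] ∈ K ∧ zl [a, c, b] ∈ K ∧ zl [b, a, c] ∈ K ∧
  zl [b, c, a] ∈ K ∧ zl [c, a, b] ∈ K ∧ zl [c, b, a] ∈ K

/-- the symmetric sum -/
noncomputable def S (a b c : ℕ) : ℝ :=
  z a * z b * z c - z a * z (b + c) - z b * z (a + c) - z c * z (a + b) + 2 * z (a + b + c)

/-- MODULE A -/
def St_A : Prop := ∀ (K : IntermediateField ℚ ℝ) (a b c : ℕ), 2 ≤ a → 2 ≤ b → 2 ≤ c →
  Clean K a b c → S a b c ∈ K

/-- MODULE B0: `ζ(a) = 1 + 2^-a + t`, `3^-a ≤ t ≤ 3^-a + 6 * 4^-a` -/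
def St_B0 : Prop := ∀ a : ℕ, 4 ≤ a →
  (1 / 3 : ℝ) ^ a ≤ z a - 1 - (1 / 2) ^ a ∧ z a - 1 - (1 / 2) ^ a ≤ (1 / 3) ^ a + 6 * (1 / 4) ^ a

/-- `β'`, `γ'`, `α'` with `x`, `x + 2 e`, `x + d`, `x + 2 e + d` -/
noncomputable def bb (x e : ℕ) : ℝ := z x * z (x + 2 * e) - z (2 * x + 2 * e)
noncomputable def aa (x e d : ℕ) : ℝ :=
  z x * z (x + 2 * e + d) + z (x + 2 * e) * z (x + d) - 2 * z (2 * x + 2 * e + d)

/-- MODULE B (from B0).  `γ' = bb (x + d) e`. -/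
def St_B : Prop := ∀ x e d : ℕ, 100 ≤ x → 100 ≤ e → 100 ≤ d →
  ∃ B G D : ℝ, (49 / 50 ≤ B ∧ B ≤ 51 / 50) ∧ (49 / 50 ≤ G ∧ G ≤ 51 / 50) ∧ (49 / 50 ≤ D ∧ D ≤ 51 / 50) ∧
    bb x e = B * (1 / 2) ^ x ∧
    bb (x + d) e - (1 / 2) ^ d * bb x e = - (G * ((1 / 2) ^ d * (1 / 3) ^ x)) ∧
    aa x e d - bb x e - bb (x + d) e = - (D * ((1 / 3) ^ x * (1 / 2) ^ (x + 2 * e)))

/-- MODULE C (from B): three values of `e`, the same `P` and `d`. -/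
def St_C : Prop := ∀ P d : ℕ, 100 ≤ d → ∀ e : Fin 3 → ℕ, 100 ≤ e 0 → e 0 + 100 ≤ e 1 → e 1 + 100 ≤ e 2 →
  e 2 + 100 ≤ P →
  Matrix.det (Matrix.of fun i : Fin 3 =>
    ![aa (P - e i) (e i) d, bb (P - e i) (e i), bb (P - e i + d) (e i)]) ≠ 0

/-- MODULE D (from A, C, Zev): `n` odd, `u = 2 P + d`. -/
def St_D : Prop := ∀ (K : IntermediateField ℚ ℝ) (n P d : ℕ), Even d → 100 ≤ d → 2 * P + 2 * d + 3 ≤ n →
  ∀ e : Fin 3 → ℕ, (∀ i, Even (P + e i)) → 100 ≤ e 0 → e 0 + 100 ≤ e 1 → e 1 + 100 ≤ e 2 →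
  e 2 + 100 ≤ P →
  (∀ i, Clean K (n - (2 * P + d)) (P - e i) (P + e i + d) ∧
    Clean K (n - (2 * P + d)) (P + e i) (P - e i + d) ∧
    Clean K (n - 2 * P) (P - e i) (P + e i) ∧
    Clean K (n - (2 * P + 2 * d)) (P - e i + d) (P + e i + d)) →
  z (2 * P + d) * z (n - (2 * P + d)) ∈ K

/-- MODULE E (from A, Zev): the contradiction. -/
def St_E : Prop := ∀ (K : IntermediateField ℚ ℝ), Transcendental K Real.pi →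
  ∀ n u₁ u₂ u₃ b : ℕ, Even u₁ → Even u₂ → Even u₃ → Even b → 2 ≤ u₁ → 2 ≤ b → 2 ≤ u₃ → u₁ + b = u₂ →
  u₁ + u₂ + u₃ = 2 * n → u₂ + 3 ≤ n → u₃ + 3 ≤ n →
  z u₁ * z (n - u₁) ∈ K → z u₂ * z (n - u₂) ∈ K → z u₃ * z (n - u₃) ∈ K → z b * z (n - b) ∈ K →
  Clean K (n - u₂) u₁ b → Clean K (n - u₁) (n - u₂) (n - u₃) → False

/-- words of weight `n` and depth 3 with value outside `K` -/
def Out3 (K : IntermediateField ℚ ℝ) (n : ℕ) : Set (List ℕ) :=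
  {w | w ∈ Idx n ∧ w.length = 3 ∧ zl w ∉ K}

/-- MODULE F (counting): families of triples. -/
def St_F : Prop := ∀ (K : IntermediateField ℚ ℝ) (n N : ℕ) (T : Type) [Fintype T]
  (f : T → ℕ × ℕ → ℕ × ℕ),
  (∀ t p, p ∈ Finset.Icc 1 N ×ˢ Finset.Icc 1 N → 2 ≤ (f t p).1 ∧ 2 ≤ (f t p).2 ∧ (f t p).1 + (f t p).2 + 2 ≤ n) →
  (∀ t, Set.InjOn (f t) ↑(Finset.Icc 1 N ×ˢ Finset.Icc 1 N)) →
  (∀ p ∈ Finset.Icc 1 N ×ˢ Finset.Icc 1 N, ∃ t, ¬ Clean K (n - ((f t p).1 + (f t p).2)) (f t p).1 (f t p).2) →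
  N ^ 2 ≤ 6 * Fintype.card T * (Out3 K n).ncard

/-- MODULE G (from D, E, F): `n` odd -/
def St_G : Prop := ∃ c : ℝ, 0 < c ∧ ∃ n₀ : ℕ, ∀ (K : IntermediateField ℚ ℝ), Transcendental K Real.pi →
  ∀ n : ℕ, n₀ ≤ n → Odd n → c * n ^ 2 ≤ ((Out3 K n).ncard : ℝ)

/-- MODULE H (from A, F, Zev): `n` even -/
def St_H : Prop := ∃ c : ℝ, 0 < c ∧ ∃ n₀ : ℕ, ∀ (K : IntermediateField ℚ ℝ), Transcendental K Real.pi →
  ∀ n : ℕ, n₀ ≤ n → Even n → c * n ^ 2 ≤ ((Out3 K n).ncard : ℝ)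

end Pool.Agent.MZT
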