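import Mathlib
import Pool.Agent.MZT.Defs

set_option autoImplicit false

namespace Pool.Agent.MZT

open Pool.Agent.MZA

/-- the number of the indices of weight `n` and depth 3 -/
theorem count3 (n : ℕ) : 2 * {w : List ℕ | w ∈ Idx n ∧ w.length = 3}.ncard = (n - 2) * (n - 3) := by
  set F : Finset (Σ _ : ℕ, ℕ) := (Finset.range (n - 3)).sigma fun i => Finset.range (i + 1) with hF
  set f : (Σ _ : ℕ, ℕ) → List ℕ := fun p => [n - 2 - p.1, p.2 + 1, p.1 + 1 - p.2] with hf
  have hinj : Set.InjOn f (F : Set (Σ _ : ℕ, ℕ)) := by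
    rintro ⟨i, j⟩ h ⟨i', j'⟩ h' heq
    simp only [hF, Finset.coe_sigma, Set.mem_sigma_iff, Finset.coe_range, Set.mem_Iio] at h h'
    simp only [hf, List.cons.injEq, and_true] at heq
    obtain ⟨h1, h2, h3⟩ := heq
    have e1 : i = i' := by omega
    have e2 : j = j' := by omega
    subst e1
    subst e2
    rfl
  have himg : {w : List ℕ | w ∈ Idx n ∧ w.length = 3} = f '' (F : Set (Σ _ : ℕ, ℕ)) := by
    ext w
    constructor
    · rintro ⟨⟨h1, h2, h3⟩, h4⟩
      match w, h4 with
      | [a, b, c], _ =>
        have ha := h2 a [b, c] rfl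
        have hb := h1 b (by simp)
        have hc := h1 c (by simp)
        simp only [List.sum_cons, List.sum_nil] at h3
        refine ⟨⟨n - 2 - a, b - 1⟩, ?_, ?_⟩
        · simp only [hF, Finset.coe_sigma, Set.mem_sigma_iff, Finset.coe_range, Set.mem_Iio]
          omega
        · simp only [hf, List.cons.injEq, and_true]
          omega
    · rintro ⟨⟨i, j⟩, h, rfl⟩
      simp only [hF, Finset.coe_sigma, Set.mem_sigma_iff, Finset.coe_range, Set.mem_Iio] at h
      refine ⟨⟨?_, ?_, ?_⟩, rfl⟩
      · intro a ha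
        simp only [hf, List.mem_cons, List.not_mem_nil, or_false] at ha
        omega
      · intro a t hat
        simp only [hf, List.cons.injEq] at hat
        omega
      · simp only [hf, List.sum_cons, List.sum_nil]
        omega
  rw [himg, Set.InjOn.ncard_image hinj, Set.ncard_coe_finset, hF, Finset.card_sigma]
  simp only [Finset.card_range]
  have h := Finset.sum_range_id_mul_two (n - 3 + 1)
  rw [Finset.sum_range_succ'] at h
  rw [add_zero] at h
  rw [mul_comm, h]
  rcases Nat.lt_or_ge n 3 with h3 | h3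
  · have : n - 3 = 0 := by omega
    rw [this]
    simp
  · have e1 : n - 3 + 1 = n - 2 := by omega
    have e2 : n - 3 + 1 - 1 = n - 3 := by omega
    rw [e2, e1]

theorem out3_fin (K : IntermediateField ℚ ℝ) (n : ℕ) : (Out3 K n).Finite := by
  have h : {w : List ℕ | w ∈ Idx n ∧ w.length = 3}.Finite := by
    apply Set.Finite.subset (s := (fun p : ℕ × ℕ × ℕ => [p.1, p.2.1, p.2.2]) ''
      ↑(Finset.range (n + 1) ×ˢ Finset.range (n + 1) ×ˢ Finset.range (n + 1)))
    · exact Set.Finite.image _ (Finset.finite_toSet _)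
    · rintro w ⟨⟨h1, h2, h3⟩, h4⟩
      match w, h4 with
      | [a, b, c], _ =>
        simp only [List.sum_cons, List.sum_nil] at h3
        refine ⟨(a, b, c), ?_, rfl⟩
        simp only [Finset.coe_product, Finset.coe_range, Set.mem_prod, Set.mem_Iio]
        omega
  exact h.subset fun w hw => ⟨hw.1, hw.2.1⟩

end Pool.Agent.MZT
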