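import Mathlib
import Pool.Agent.MZT.Defs

set_option autoImplicit false

/-!
# MZT G: the configuration for odd `n`
-/

namespace Pool.Agent.MZT

open Pool.Agent.Helper21 (mzv H zl Adm)
open Pool.Agent.MZA

/-- the numbers `P` of the four configurations -/
def cP (n m p q : ℕ) : Fin 4 → ℕ := ![10 * m + 2 * p - 100, 14 * m + 2 * q - 100,
  n - (24 * m + 2 * p + 2 * q + 101), 4 * m + 2 * q - 2 * p - 100]

/-- the numbers `d` -/
def cd : Fin 4 → ℕ := ![200, 200, 202, 200]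

/-- the numbers `e` -/
def ce (p q : ℕ) (j : Fin 4) : Fin 3 → ℕ :=
  ![100 + 2 * (![q, p, p, p] : Fin 4 → ℕ) j, 200 + 2 * (![q, p, p, p] : Fin 4 → ℕ) j,
    300 + 2 * (![q, p, p, p] : Fin 4 → ℕ) j]

/-- the two even parts of a triple -/
def pr (P d e : ℕ) : Fin 4 → ℕ × ℕ := ![(P - e, P + e + d), (P + e, P - e + d), (P - e, P + e),
  (P - e + d, P + e + d)]

/-- all triples -/
def fam (n m : ℕ) : (Fin 4 × Fin 3 × Fin 4) ⊕ Bool → ℕ × ℕ → ℕ × ℕ
  | Sum.inl (j, i, k), (p, q) => pr (cP n m p q j) (cd j) (ce p q j i) k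
  | Sum.inr true, (p, q) => (20 * m + 4 * p, 8 * m + 4 * q - 4 * p)
  | Sum.inr false, (p, q) => (n - (28 * m + 4 * q), 48 * m + 4 * p + 4 * q - n)

theorem cP_bd (n m p q : ℕ) (h1 : 40 * m ≤ n) (h2 : n < 40 * m + 40) (hm : 1000 ≤ m)
    (hp : 1 ≤ p) (hp' : 16 * p ≤ m) (hq : 1 ≤ q) (hq' : 16 * q ≤ m) (j : Fin 4) :
    ce p q j 2 + 100 ≤ cP n m p q j ∧ 2 * cP n m p q j + 2 * cd j + 3 ≤ n := by
  fin_cases j <;> simp [cP, cd, ce] <;> omega

theorem ce_bd (p q : ℕ) (j : Fin 4) :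
    100 ≤ ce p q j 0 ∧ ce p q j 0 + 100 ≤ ce p q j 1 ∧ ce p q j 1 + 100 ≤ ce p q j 2 := by
  refine ⟨?_, ?_, ?_⟩ <;> simp [ce] <;> omega

theorem ce_le (p q : ℕ) (j : Fin 4) (i : Fin 3) : ce p q j i ≤ ce p q j 2 := by
  fin_cases i <;> simp [ce]

theorem even_cP (n m p q : ℕ) (hn : Odd n) (j : Fin 4) (i : Fin 3) :
    Even (cP n m p q j + ce p q j i) := by
  rw [Nat.odd_iff] at hn
  rw [Nat.even_iff]
  fin_cases j <;> fin_cases i <;> simp [cP, ce] <;> omega

theorem pr_sum (P d e : ℕ) (h : e ≤ P) (k : Fin 4) :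
    (pr P d e k).1 + (pr P d e k).2 = (![2 * P + d, 2 * P + d, 2 * P, 2 * P + 2 * d] : Fin 4 → ℕ) k := by
  fin_cases k <;> simp [pr] <;> omega

theorem pr_inj (P P' d e e' : ℕ) (h : e ≤ P) (h' : e' ≤ P') (k : Fin 4)
    (heq : pr P d e k = pr P' d e' k) : P = P' ∧ e = e' := by
  fin_cases k <;> simp [pr] at heq <;> omega

/-- `n` odd, explicit -/
theorem thm_Gx (hD : St_D) (hE : St_E) (hF : St_F) (K : IntermediateField ℚ ℝ)
    (hK : Transcendental K Real.pi) (n : ℕ) (hn : 40000 ≤ n) (hodd : Odd n) :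
    1 / 500000000 * (n : ℝ) ^ 2 ≤ ((Out3 K n).ncard : ℝ) := by
  obtain ⟨m, hm⟩ : ∃ m, m = n / 40 := ⟨_, rfl⟩
  obtain ⟨N, hN⟩ : ∃ N, N = m / 16 := ⟨_, rfl⟩
  have h1 : 40 * m ≤ n := by omega
  have h2 : n < 40 * m + 40 := by omega
  have hm1 : 1000 ≤ m := by omega
  have hN1 : 16 * N ≤ m := by omega
  have hodd2 := Nat.odd_iff.1 hodd
  have hbox : ∀ p : ℕ × ℕ, p ∈ Finset.Icc 1 N ×ˢ Finset.Icc 1 N →
      1 ≤ p.1 ∧ 16 * p.1 ≤ m ∧ 1 ≤ p.2 ∧ 16 * p.2 ≤ m := by
    intro p hp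
    rw [Finset.mem_product, Finset.mem_Icc, Finset.mem_Icc] at hp
    omega
  have hcount : N ^ 2 ≤ 6 * Fintype.card ((Fin 4 × Fin 3 × Fin 4) ⊕ Bool) * (Out3 K n).ncard := by
    apply hF K n N _ (fam n m)
    · rintro t ⟨p, q⟩ hp
      obtain ⟨a1, a2, a3, a4⟩ := hbox _ hp
      simp only at a1 a2 a3 a4
      rcases t with ⟨j, i, k⟩ | b
      · obtain ⟨c1, c2⟩ := cP_bd n m p q h1 h2 hm1 a1 a2 a3 a4 j
        have c3 := ce_le p q j i
        have c4 := (ce_bd p q j).1
        have c5 : 200 ≤ cd j := by fin_cases j <;> simp [cd]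
        have c6 := ce_bd p q j
        change 2 ≤ (pr (cP n m p q j) (cd j) (ce p q j i) k).1 ∧
          2 ≤ (pr (cP n m p q j) (cd j) (ce p q j i) k).2 ∧
          (pr (cP n m p q j) (cd j) (ce p q j i) k).1 + (pr (cP n m p q j) (cd j) (ce p q j i) k).2 + 2 ≤ n
        have c7 : 100 ≤ ce p q j i := by
          fin_cases i <;> simp only [Fin.zero_eta, Fin.mk_one, Fin.reduceFinMk] <;> omega
        generalize cP n m p q j = P at *
        generalize ce p q j i = e at *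
        generalize cd j = d at *
        fin_cases k <;> simp [pr] <;> omega
      · rcases b with _ | _ <;> simp only [fam] <;> omega
    · rintro t ⟨p, q⟩ hp ⟨p', q'⟩ hp' heq
      obtain ⟨a1, a2, a3, a4⟩ := hbox _ hp
      obtain ⟨b1, b2, b3, b4⟩ := hbox _ hp'
      simp only at a1 a2 a3 a4 b1 b2 b3 b4
      rcases t with ⟨j, i, k⟩ | b
      · obtain ⟨c1, c2⟩ := cP_bd n m p q h1 h2 hm1 a1 a2 a3 a4 j
        obtain ⟨c1', c2'⟩ := cP_bd n m p' q' h1 h2 hm1 b1 b2 b3 b4 j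
        have c3 := ce_le p q j i
        have c3' := ce_le p' q' j i
        obtain ⟨d1, d2⟩ := pr_inj (cP n m p q j) (cP n m p' q' j) (cd j) (ce p q j i) (ce p' q' j i)
          (by omega) (by omega) k heq
        clear c1 c2 c1' c2' c3 c3' heq
        have e1 : p = p' ∧ q = q' := by
          fin_cases j <;> fin_cases i <;> simp [cP, ce] at d1 d2 <;> omega
        rw [e1.1, e1.2]
      · have e1 : p = p' ∧ q = q' := by
          rcases b with _ | _ <;> simp only [fam, Prod.mk.injEq] at heq <;> omega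
        rw [e1.1, e1.2]
    · rintro ⟨p, q⟩ hp
      obtain ⟨a1, a2, a3, a4⟩ := hbox _ hp
      simp only at a1 a2 a3 a4
      by_contra hcon
      push Not at hcon
      have hW : ∀ j : Fin 4, z (2 * cP n m p q j + cd j) * z (n - (2 * cP n m p q j + cd j)) ∈ K := by
        intro j
        obtain ⟨c1, c2⟩ := cP_bd n m p q h1 h2 hm1 a1 a2 a3 a4 j
        obtain ⟨c3, c4, c5⟩ := ce_bd p q j
        apply hD K n (cP n m p q j) (cd j) (by fin_cases j <;> simp [cd] <;> decide)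
          (by fin_cases j <;> simp [cd]) c2 (ce p q j)
          (fun i => even_cP n m p q hodd j i) c3 c4 c5 c1
        intro i
        have c6 := ce_le p q j i
        have hk : ∀ k : Fin 4, Clean K (n - ((![2 * cP n m p q j + cd j, 2 * cP n m p q j + cd j,
            2 * cP n m p q j, 2 * cP n m p q j + 2 * cd j] : Fin 4 → ℕ) k))
            (pr (cP n m p q j) (cd j) (ce p q j i) k).1 (pr (cP n m p q j) (cd j) (ce p q j i) k).2 := by
          intro k
          rw [← pr_sum (cP n m p q j) (cd j) (ce p q j i) (by omega) k]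
          exact hcon (Sum.inl (j, i, k))
        exact ⟨hk 0, hk 1, hk 2, hk 3⟩
      have w0 := hW 0
      have w1 := hW 1
      have w2 := hW 2
      have w3 := hW 3
      have x0 : 2 * cP n m p q 0 + cd 0 = 20 * m + 4 * p := by simp [cP, cd]; omega
      have x1 : 2 * cP n m p q 1 + cd 1 = 28 * m + 4 * q := by simp [cP, cd]; omega
      have x2 : 2 * cP n m p q 2 + cd 2 = 2 * n - (48 * m + 4 * p + 4 * q) := by simp [cP, cd]; omega
      have x3 : 2 * cP n m p q 3 + cd 3 = 8 * m + 4 * q - 4 * p := by simp [cP, cd]; omega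
      rw [x0] at w0
      rw [x1] at w1
      rw [x2] at w2
      rw [x3] at w3
      refine hE K hK n (20 * m + 4 * p) (28 * m + 4 * q) (2 * n - (48 * m + 4 * p + 4 * q))
        (8 * m + 4 * q - 4 * p) (Nat.even_iff.2 (by omega)) (Nat.even_iff.2 (by omega))
        (Nat.even_iff.2 (by omega)) (Nat.even_iff.2 (by omega)) (by omega) (by omega) (by omega)
        (by omega) (by omega) (by omega) (by omega) w0 w1 w2 w3 ?_ ?_
      · have h3 := hcon (Sum.inr true)
        simp only [fam] at h3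
        have h4 : n - (20 * m + 4 * p + (8 * m + 4 * q - 4 * p)) = n - (28 * m + 4 * q) := by omega
        rwa [h4] at h3
      · have h3 := hcon (Sum.inr false)
        simp only [fam] at h3
        have h4 : n - (n - (28 * m + 4 * q) + (48 * m + 4 * p + 4 * q - n)) = n - (20 * m + 4 * p) := by
          omega
        have h5 : 48 * m + 4 * p + 4 * q - n = n - (2 * n - (48 * m + 4 * p + 4 * q)) := by omega
        rw [h4, h5] at h3
        exact h3
  have hcard : Fintype.card ((Fin 4 × Fin 3 × Fin 4) ⊕ Bool) = 50 := by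
    simp [Fintype.card_sum, Fintype.card_prod]
  rw [hcard] at hcount
  have h3 : n ≤ 1280 * N := by omega
  have h4 : ((N : ℝ)) ^ 2 ≤ 300 * ((Out3 K n).ncard : ℝ) := by
    exact_mod_cast hcount
  have h5 : (n : ℝ) ≤ 1280 * N := by exact_mod_cast h3
  have h6 : (n : ℝ) ^ 2 ≤ (1280 * N) ^ 2 := pow_le_pow_left₀ (by positivity) h5 2
  nlinarith

theorem thm_G (hD : St_D) (hE : St_E) (hF : St_F) : St_G :=
  ⟨1 / 500000000, by norm_num, 40000, fun K hK n hn hodd => thm_Gx hD hE hF K hK n hn hodd⟩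

end Pool.Agent.MZT
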