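import Pool.Agent.MZT.A
import Pool.Agent.MZA.Main

set_option autoImplicit false

/-!
# MZT, module H: even weights
-/

namespace Pool.Agent.MZT

open Pool.Agent.Helper21 (zl Adm)
open Pool.Agent.MZA

/-- no positive power of `π` is in `K` if `π` is transcendental over `K` -/
theorem pi_pow_notMem {K : IntermediateField ℚ ℝ} (hK : Transcendental K Real.pi) {n : ℕ}
    (hn : 0 < n) : Real.pi ^ n ∉ K := by
  intro h
  have h1 : IsAlgebraic K (Real.pi ^ n) := isAlgebraic_algebraMap (⟨Real.pi ^ n, h⟩ : K)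
  exact hK (h1.of_pow hn)

theorem adm3 {a b c : ℕ} (ha : 2 ≤ a) (hb : 2 ≤ b) (hc : 2 ≤ c) : Adm [a, b, c] := by
  refine ⟨?_, ?_⟩
  · intro x hx
    simp only [List.mem_cons, List.not_mem_nil, or_false] at hx
    omega
  · intro x t h
    obtain ⟨rfl, -⟩ := List.cons.inj h
    exact ha

theorem S_pos {a b c : ℕ} (ha : 2 ≤ a) (hb : 2 ≤ b) (hc : 2 ≤ c) : 0 < S a b c := by
  rw [S_eq ha hb hc]
  have h1 := main_zl_pos _ (adm3 ha hb hc)
  have h2 := main_zl_pos _ (adm3 ha hc hb)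
  have h3 := main_zl_pos _ (adm3 hb ha hc)
  have h4 := main_zl_pos _ (adm3 hb hc ha)
  have h5 := main_zl_pos _ (adm3 hc ha hb)
  have h6 := main_zl_pos _ (adm3 hc hb ha)
  linarith

/-- the symmetric sum of three even numbers is a rational multiple of a power of `π` -/
theorem S_even {i j k : ℕ} (hi : 1 ≤ i) (hj : 1 ≤ j) (hk : 1 ≤ k) :
    ∃ q : ℚ, S (2 * i) (2 * j) (2 * k) = q * Real.pi ^ (2 * (i + j + k)) := by
  obtain ⟨a, -, ha⟩ := thm_Zev i hi
  obtain ⟨b, -, hb⟩ := thm_Zev j hj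
  obtain ⟨c, -, hc⟩ := thm_Zev k hk
  obtain ⟨ab, -, hab⟩ := thm_Zev (i + j) (by omega)
  obtain ⟨ac, -, hac⟩ := thm_Zev (i + k) (by omega)
  obtain ⟨bc, -, hbc⟩ := thm_Zev (j + k) (by omega)
  obtain ⟨s, -, hs⟩ := thm_Zev (i + j + k) (by omega)
  refine ⟨a * b * c - a * bc - b * ac - c * ab + 2 * s, ?_⟩
  simp only [S, z]
  rw [show 2 * j + 2 * k = 2 * (j + k) by ring, show 2 * i + 2 * k = 2 * (i + k) by ring,
    show 2 * i + 2 * j = 2 * (i + j) by ring, show 2 * (i + j) + 2 * k = 2 * (i + j + k) by ring,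
    ha, hb, hc, hab, hac, hbc, hs]
  push_cast
  rw [show 2 * (i + j + k) = 2 * i + 2 * j + 2 * k by ring,
    show 2 * (j + k) = 2 * j + 2 * k by ring, show 2 * (i + k) = 2 * i + 2 * k by ring,
    show 2 * (i + j) = 2 * i + 2 * j by ring]
  simp only [pow_add]
  ring

/-- three even numbers are never clean -/
theorem not_clean_even (hA : St_A) {K : IntermediateField ℚ ℝ} (hK : Transcendental K Real.pi)
    {i j k : ℕ} (hi : 1 ≤ i) (hj : 1 ≤ j) (hk : 1 ≤ k) :
    ¬ Clean K (2 * i) (2 * j) (2 * k) := by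
  intro h
  have h1 := hA K (2 * i) (2 * j) (2 * k) (by omega) (by omega) (by omega) h
  have h2 := S_pos (a := 2 * i) (b := 2 * j) (c := 2 * k) (by omega) (by omega) (by omega)
  obtain ⟨q, hq⟩ := S_even hi hj hk
  have hq0 : (q : ℝ) ≠ 0 := by
    intro h0
    rw [hq, h0, zero_mul] at h2
    exact lt_irrefl _ h2
  have hqK : (q : ℝ) ∈ K := by
    have := K.algebraMap_mem q
    simpa using this
  have h3 : Real.pi ^ (2 * (i + j + k)) = S (2 * i) (2 * j) (2 * k) * (q : ℝ)⁻¹ := by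
    rw [hq]
    field_simp
  refine pi_pow_notMem hK (n := 2 * (i + j + k)) (by omega) ?_
  rw [h3]
  exact K.mul_mem h1 (K.inv_mem hqK)

/-- MODULE H -/
theorem thm_H (hA : St_A) (hF : St_F) : St_H := by
  refine ⟨1 / 1536, by norm_num, 16, fun K hK n hn hev => ?_⟩
  obtain ⟨m, hm⟩ := hev
  set N := n / 8 with hN
  have h1 := hF K n N Unit (fun _ p => (2 * p.1, 2 * p.2)) (by
    intro t p hp
    rw [Finset.mem_product, Finset.mem_Icc, Finset.mem_Icc] at hp
    simp only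
    omega) (by
    intro t p _ p' _ h
    simp only [Prod.mk.injEq] at h
    exact Prod.ext (by omega) (by omega)) (by
    intro p hp
    rw [Finset.mem_product, Finset.mem_Icc, Finset.mem_Icc] at hp
    refine ⟨(), ?_⟩
    have h2 : n - (2 * p.1 + 2 * p.2) = 2 * (m - p.1 - p.2) := by omega
    show ¬ Clean K (n - (2 * p.1 + 2 * p.2)) (2 * p.1) (2 * p.2)
    rw [h2]
    exact not_clean_even hA hK (by omega) (by omega) (by omega))
  rw [Fintype.card_unit, mul_one] at h1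
  have h3 : ((N : ℝ)) ^ 2 ≤ 6 * ((Out3 K n).ncard : ℝ) := by exact_mod_cast h1
  have h4 : (n : ℝ) ≤ 16 * N := by
    have : n ≤ 16 * N := by omega
    exact_mod_cast this
  have h5 : (n : ℝ) ^ 2 ≤ (16 * N) ^ 2 := pow_le_pow_left₀ (Nat.cast_nonneg n) h4 2
  nlinarith

end Pool.Agent.MZT
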