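import Mathlib
import Pool.Agent.MZT.HH
import Pool.Agent.MZT.G
import Pool.Agent.MZT.Cnt3

set_option autoImplicit false

namespace Pool.Agent.MZT

/-- `n` even, explicit -/
theorem thm_Hx (hA : St_A) (hF : St_F) (K : IntermediateField ℚ ℝ)
    (hK : Transcendental K Real.pi) (n : ℕ) (hn : 16 ≤ n) (hev : Even n) :
    1 / 1536 * (n : ℝ) ^ 2 ≤ ((Out3 K n).ncard : ℝ) := by
  obtain ⟨m, hm⟩ := hev
  set N := n / 8 with hN
  have h1 := hF K n N Unit (fun _ p => (2 * p.1, 2 * p.2)) (by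
    intro t p hp
    rw [Finset.mem_product, Finset.mem_Icc, Finset.mem_Icc] at hp
    simp only
    omega) (by
    intro t p _ p' _ h
    simp only [Prod.mk.injEq] at h
    exact Prod.ext (by omega) (by omega)) (by
    intro p hp
    rw [Finset.mem_product, Finset.mem_Icc, Finset.mem_Icc] at hp
    refine ⟨(), ?_⟩
    have h2 : n - (2 * p.1 + 2 * p.2) = 2 * (m - p.1 - p.2) := by omega
    show ¬ Clean K (n - (2 * p.1 + 2 * p.2)) (2 * p.1) (2 * p.2)
    rw [h2]
    exact not_clean_even hA hK (by omega) (by omega) (by omega))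
  rw [Fintype.card_unit, mul_one] at h1
  have h3 : ((N : ℝ)) ^ 2 ≤ 6 * ((Out3 K n).ncard : ℝ) := by exact_mod_cast h1
  have h4 : (n : ℝ) ≤ 16 * N := by
    have : n ≤ 16 * N := by omega
    exact_mod_cast this
  have h5 : (n : ℝ) ^ 2 ≤ (16 * N) ^ 2 := pow_le_pow_left₀ (Nat.cast_nonneg n) h4 2
  nlinarith

/-- every weight -/
theorem thm_Fin (hA : St_A) (hD : St_D) (hE : St_E) (hF : St_F) (K : IntermediateField ℚ ℝ)
    (hK : Transcendental K Real.pi) (n : ℕ) (hn : 40000 ≤ n) :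
    n ^ 2 ≤ 500000000 * (Out3 K n).ncard := by
  have h : 1 / 500000000 * (n : ℝ) ^ 2 ≤ ((Out3 K n).ncard : ℝ) := by
    rcases Nat.even_or_odd n with he | ho
    · have h1 := thm_Hx hA hF K hK n (by omega) he
      have h2 : (0 : ℝ) ≤ (n : ℝ) ^ 2 := by positivity
      linarith
    · exact thm_Gx hD hE hF K hK n hn ho
  have h3 : ((n ^ 2 : ℕ) : ℝ) ≤ ((500000000 * (Out3 K n).ncard : ℕ) : ℝ) := by
    push_cast
    linarith
  exact_mod_cast h3

end Pool.Agent.MZT
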